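import Pool.Agent.Helper91_AT3.Defs
import Pool.Agent.Helper64_AT3.Bas

set_option autoImplicit false
set_option linter.unusedSectionVars false

namespace Pool.Agent.H91AT

open MvPolynomial Submodule

variable {σ K ι : Type*} [DecidableEq σ] [Fintype σ] [Field K] [DecidableEq K] [DecidableEq ι]

lemma uv_supp {S : Finset σ} {x : σ → K} (h : UV x) :
    (S.filter (fun v => x v ≠ 0)).card ≤ 1 := by
  obtain ⟨s, _, w, rfl⟩ := h
  have hsub : S.filter (fun v => (Pi.single w s : σ → K) v ≠ 0) ⊆ {w} := by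
    intro v hv
    rw [Finset.mem_filter] at hv
    rw [Finset.mem_singleton]
    by_contra hne
    exact hv.2 (by simp [hne])
  exact (Finset.card_le_card hsub).trans (by simp)

lemma gv_supp {S : Finset σ} {x : σ → K} (h : GV x) :
    (S.filter (fun v => x v ≠ 0)).card ≤ 2 := by
  obtain ⟨s, _, h | h⟩ := h
  · obtain ⟨w, rfl⟩ := h
    have hsub : S.filter (fun v => (Pi.single w s : σ → K) v ≠ 0) ⊆ {w} := by
      intro v hv
      rw [Finset.mem_filter] at hv
      rw [Finset.mem_singleton]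
      by_contra hne
      exact hv.2 (by simp [hne])
    exact (Finset.card_le_card hsub).trans (by simp)
  · obtain ⟨w, w', _, rfl⟩ := h
    have hsub : S.filter (fun v => (Pi.single w s - Pi.single w' s : σ → K) v ≠ 0) ⊆ {w, w'} := by
      intro v hv
      rw [Finset.mem_filter] at hv
      rw [Finset.mem_insert, Finset.mem_singleton]
      by_contra hne
      rw [not_or] at hne
      apply hv.2
      simp [hne.1, hne.2]
    exact (Finset.card_le_card hsub).trans Finset.card_le_two

/-- A basis of graph vectors contains a root vector. -/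
lemma gv_root {S : Finset σ} {b : ι → σ → K} {B : Finset ι} (hB : Bas S b B)
    (hS : S.Nonempty) (hg : ∀ c ∈ B, GV (b c)) :
    ∃ c ∈ B, (S.filter (fun v => b c v ≠ 0)).card ≤ 1 := by
  by_contra hcon
  push Not at hcon
  obtain ⟨v0, hv0⟩ := hS
  have hzero : ∀ c ∈ B, ∑ v ∈ S, b c v = 0 := by
    intro c hc
    obtain ⟨s, hs, h | h⟩ := hg c hc
    · exfalso
      have := hcon c hc
      have h1 : UV (b c) := ⟨s, hs, h⟩
      exact absurd (uv_supp (S := S) h1) (by omega)
    · obtain ⟨w, w', hww, hbc⟩ := h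
      have hin := hB.2.2 c hc
      have hw : w ∈ S := by
        by_contra hw
        have h1 := hin w hw
        have e1 : (Pi.single w s : σ → K) w = s := by simp
        have e2 : (Pi.single w' s : σ → K) w = 0 := by simp [hww]
        rw [hbc, Pi.sub_apply, e1, e2, sub_zero] at h1
        exact hs h1
      have hw' : w' ∈ S := by
        by_contra hw'
        have h1 := hin w' hw'
        have e1 : (Pi.single w' s : σ → K) w' = s := by simp
        have e2 : (Pi.single w s : σ → K) w' = 0 := by simp [Ne.symm hww]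
        rw [hbc, Pi.sub_apply, e1, e2, zero_sub, neg_eq_zero] at h1
        exact hs h1
      rw [hbc]
      simp only [Pi.sub_apply, Finset.sum_sub_distrib]
      rw [Finset.sum_pi_single' w s S, Finset.sum_pi_single' w' s S,
        if_pos hw, if_pos hw', sub_self]
  have hx : InS S (Pi.single v0 (1 : K)) := by
    intro w hw
    apply Pi.single_eq_of_ne
    rintro rfl
    exact hw hv0
  obtain ⟨g, hg'⟩ := bas_span hB hx
  have h1 : ∑ v ∈ S, (Pi.single v0 (1 : K) : σ → K) v = 0 := by
    rw [← hg']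
    simp only [Finset.sum_apply, Pi.smul_apply, smul_eq_mul]
    rw [Finset.sum_comm]
    apply Finset.sum_eq_zero
    intro c hc
    rw [← Finset.mul_sum, hzero c hc, mul_zero]
  rw [Finset.sum_pi_single' v0 (1 : K) S, if_pos hv0] at h1
  exact one_ne_zero h1

/-- double counting -/
lemma deg_sum {p : ℕ} {S : Finset σ} {b : ι → σ → K} {B : Fin p → Finset ι}
    (hd : ∀ i j, i ≠ j → Disjoint (B i) (B j)) :
    ∑ v ∈ S, ((Finset.univ.biUnion B).filter (fun c => b c v ≠ 0)).card =
      ∑ i, ∑ c ∈ B i, (S.filter (fun v => b c v ≠ 0)).card := by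
  rw [← Finset.sum_biUnion (fun i _ j _ hij => hd i j hij)]
  simp only [Finset.card_filter]
  rw [Finset.sum_comm]

theorem cnt_one {p : ℕ} {S : Finset σ} {b : ι → σ → K} {B : Fin p → Finset ι}
    (hS : S.Nonempty)
    (hd : ∀ i j, i ≠ j → Disjoint (B i) (B j))
    (hB : ∀ i, Bas S b (B i))
    (s : Finset (Fin p)) (hs : s.card = 3)
    (hg : ∀ i ∈ s, ∀ c ∈ B i, GV (b c))
    (hu : ∀ i ∉ s, ∀ c ∈ B i, UV (b c)) :
    ∃ v ∈ S, ((Finset.univ.biUnion B).filter (fun c => b c v ≠ 0)).card ≤ p + 2 := by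
  by_contra hcon
  push Not at hcon
  have h1 : ∑ v ∈ S, (p + 3) ≤
      ∑ v ∈ S, ((Finset.univ.biUnion B).filter (fun c => b c v ≠ 0)).card :=
    Finset.sum_le_sum (fun v hv => hcon v hv)
  rw [deg_sum hd, Finset.sum_const, smul_eq_mul] at h1
  have h2 : ∀ i ∈ sᶜ, ∑ c ∈ B i, (S.filter (fun v => b c v ≠ 0)).card ≤ S.card := by
    intro i hi
    rw [Finset.mem_compl] at hi
    rw [← (hB i).1]
    calc ∑ c ∈ B i, (S.filter (fun v => b c v ≠ 0)).card ≤ ∑ c ∈ B i, 1 :=
          Finset.sum_le_sum (fun c hc => uv_supp (hu i hi c hc))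
      _ = (B i).card := by simp
  have h3 : ∀ i ∈ s, ∑ c ∈ B i, (S.filter (fun v => b c v ≠ 0)).card + 1 ≤ 2 * S.card := by
    intro i hi
    obtain ⟨c0, hc0, hc0'⟩ := gv_root (hB i) hS (hg i hi)
    rw [← (hB i).1, mul_comm, ← smul_eq_mul, ← Finset.sum_const]
    apply Nat.succ_le_of_lt
    exact Finset.sum_lt_sum (fun c hc => gv_supp (hg i hi c hc)) ⟨c0, hc0, by omega⟩
  have h4 := Finset.sum_add_sum_compl s
    (fun i => ∑ c ∈ B i, (S.filter (fun v => b c v ≠ 0)).card)
  rw [← h4] at h1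
  have h5 := Finset.sum_le_sum h2
  have h6 := Finset.sum_le_sum h3
  rw [Finset.sum_add_distrib] at h6
  simp only [Finset.sum_const, smul_eq_mul, Finset.card_compl, Fintype.card_fin, hs, mul_one] at h5 h6
  have hp : 3 ≤ p := by
    have := Finset.card_le_univ s
    rwa [hs, Fintype.card_fin] at this
  obtain ⟨m, rfl⟩ := Nat.exists_eq_add_of_le hp
  have h7 : 3 + m - 3 = m := by omega
  rw [h7] at h5
  nlinarith

theorem cnt_two {p : ℕ} {S : Finset σ} {b : ι → σ → K} {B : Fin p → Finset ι}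
    (hS : S.Nonempty)
    (hd : ∀ i j, i ≠ j → Disjoint (B i) (B j))
    (hB : ∀ i, Bas S b (B i))
    (s : Finset (Fin p)) (hs : s.card = 2)
    (hg : ∀ i ∈ s, ∀ c ∈ B i, (Finset.univ.filter (fun w => b c w ≠ 0)).card ≤ 2)
    (hu : ∀ i ∉ s, ∀ c ∈ B i, UV (b c)) :
    ∃ v ∈ S, ((Finset.univ.biUnion B).filter (fun c => b c v ≠ 0)).card ≤ p + 2 := by
  by_contra hcon
  push Not at hcon
  have h1 : ∑ v ∈ S, (p + 3) ≤
      ∑ v ∈ S, ((Finset.univ.biUnion B).filter (fun c => b c v ≠ 0)).card :=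
    Finset.sum_le_sum (fun v hv => hcon v hv)
  rw [deg_sum hd, Finset.sum_const, smul_eq_mul] at h1
  have h2 : ∀ i ∈ sᶜ, ∑ c ∈ B i, (S.filter (fun v => b c v ≠ 0)).card ≤ S.card := by
    intro i hi
    rw [Finset.mem_compl] at hi
    rw [← (hB i).1]
    calc ∑ c ∈ B i, (S.filter (fun v => b c v ≠ 0)).card ≤ ∑ c ∈ B i, 1 :=
          Finset.sum_le_sum (fun c hc => uv_supp (hu i hi c hc))
      _ = (B i).card := by simp
  have h3 : ∀ i ∈ s, ∑ c ∈ B i, (S.filter (fun v => b c v ≠ 0)).card ≤ 2 * S.card := by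
    intro i hi
    rw [← (hB i).1, mul_comm, ← smul_eq_mul, ← Finset.sum_const]
    apply Finset.sum_le_sum
    intro c hc
    exact (Finset.card_le_card (Finset.filter_subset_filter _ (Finset.subset_univ S))).trans
      (hg i hi c hc)
  have h4 := Finset.sum_add_sum_compl s
    (fun i => ∑ c ∈ B i, (S.filter (fun v => b c v ≠ 0)).card)
  rw [← h4] at h1
  have h5 := Finset.sum_le_sum h2
  have h6 := Finset.sum_le_sum h3
  simp only [Finset.sum_const, smul_eq_mul, Finset.card_compl, Fintype.card_fin, hs] at h5 h6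
  have hp : 2 ≤ p := by
    have := Finset.card_le_univ s
    rwa [hs, Fintype.card_fin] at this
  obtain ⟨m, rfl⟩ := Nat.exists_eq_add_of_le hp
  have h7 : 2 + m - 2 = m := by omega
  rw [h7] at h5
  have hpos := hS.card_pos
  nlinarith

end Pool.Agent.H91AT
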